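import Mathlib

/-! Doubly-derived palintiples of shifted-symmetric palintiples have multiplier `b`. -/

namespace Pool.Agent.Results.MP_6bbb8b_nt.Derived

open Finset

/-- `(d_k, ..., d_0)_b` is an `(n, b)`-palintiple with carries `c_0, ..., c_k`. -/
structure IsPal (n b k : ℕ) (d c : ℕ → ℕ) : Prop where
  one_lt : 1 < n
  lt_base : n < b
  len : 1 ≤ k
  digit : ∀ j ≤ k, d j < b
  last : d 0 ≠ 0
  value : ∑ j ∈ range (k + 1), d j * b ^ j = n * ∑ j ∈ range (k + 1), d (k - j) * b ^ j
  carry_zero : c 0 = 0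
  carry_top : c (k + 1) = 0
  carry : ∀ j ≤ k, n * d (k - j) + c j = d j + b * c (j + 1)

section aux

theorem fin_arith {n h g y s N : ℤ} (hn : 2 ≤ n) (hh : 1 ≤ h) (hg : 1 ≤ g) (hy : 1 ≤ y)
    (hs : 1 ≤ s) (e : h * g = n ^ 2 - 1) (h1 : s * (n * y + h) < g * y + n)
    (h2 : s * (n * y + h) < N) (hd : N ^ 2 - 1 ∣ s * y * (N * (n * y + h) + y)) :
    N = g * y + n := by
  obtain ⟨t, ht⟩ := hd
  have hny : n ≤ n * y := by nlinarith
  have hx : n * y + h ≤ s * (n * y + h) := by nlinarith
  have hN : n + 2 ≤ N := by omega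
  have ht0 : 0 < t := by
    have hN0 : 0 < N := by omega
    have : 0 < (N ^ 2 - 1) * t := by rw [← ht]; positivity
    exact (pos_iff_pos_of_mul_pos this).1 (by nlinarith)
  obtain ⟨u, hu⟩ : ∃ u, u = t * N - s * y * (n * y + h) := ⟨_, rfl⟩
  have hNu : N * u = t + s * y ^ 2 := by rw [hu]; linear_combination -ht
  have hu0 : 0 < u := by
    have : 0 < N * u := by rw [hNu]; positivity
    exact (pos_iff_pos_of_mul_pos this).1 (by omega)
  obtain ⟨v, hv⟩ : ∃ v, v = t - n * u := ⟨_, rfl⟩
  have key : (N + n) * v = h * s * y - u * (n ^ 2 - 1) := by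
    rw [hv]; linear_combination -hu - n * hNu
  have hsn : s * n ≤ g := by
    by_contra hc
    have h3 : g + 1 ≤ s * n := by omega
    have h4 : s * (n * y + h) * g < (g * y + n) * g := by nlinarith
    have h5 : s * (n * y + h) * g = s * n * (g * y + n) - s := by linear_combination s * e
    have h6 : (g + 1) * (g * y + n) ≤ s * n * (g * y + n) := by gcongr
    have h7 : s ≤ s * (n * y + h) := by nlinarith
    nlinarith
  have hsh : s * h < n := by
    by_contra hc
    have : n * n ≤ s * h * n := by gcongr; omega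
    nlinarith
  have hun : 0 < u * (n ^ 2 - 1) := by apply mul_pos hu0; nlinarith
  have hv0 : v ≤ 0 := by
    by_contra hc
    have : N + n ≤ (N + n) * v := by nlinarith
    have : h * s * y < n * y := by nlinarith
    omega
  rcases hv0.lt_or_eq with hv1 | hv1
  · exfalso
    have a1 : u * (N - n) < s * y ^ 2 := by nlinarith
    have a2 : N + n < u * (n ^ 2 - 1) := by
      have : 0 < h * s * y := by positivity
      nlinarith
    have a3 : (N + n) * (N - n) < s * y ^ 2 * (n ^ 2 - 1) := by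
      calc (N + n) * (N - n) < u * (n ^ 2 - 1) * (N - n) := by gcongr; omega
        _ = u * (N - n) * (n ^ 2 - 1) := by ring
        _ ≤ s * y ^ 2 * (n ^ 2 - 1) := by gcongr; nlinarith
    rcases hs.lt_or_eq with hs2 | rfl
    · have b1 : s * (n * y) < N := by nlinarith
      have b2 : (s * (n * y)) ^ 2 < N ^ 2 := by gcongr
      have b3 : n ^ 2 ≤ (n * y) ^ 2 := by gcongr
      have b4 : 2 * s * (n * y) ^ 2 ≤ s * s * (n * y) ^ 2 := by gcongr; omega
      have b5 : (n * y) ^ 2 ≤ s * (n * y) ^ 2 := by nlinarith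
      have b6 : 0 < s * y ^ 2 := by positivity
      nlinarith
    · have b1 : n * y + 2 ≤ N := by omega
      have b2 : N - n < y ^ 2 := by nlinarith
      have b3 : (n * y + 2) ^ 2 ≤ N ^ 2 := by gcongr
      have b4 : n ≤ y := by
        by_contra hc
        have : (y + 1) * (y - 1) ≤ n * (y - 1) := by gcongr <;> omega
        nlinarith
      nlinarith
  · rw [hv1] at key hv
    have a1 : h * (s * y - u * g) = 0 := by linear_combination -key - u * e
    have a2 : s * y = u * g := by
      rcases mul_eq_zero.1 a1 with h0 | h0 <;> omega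
    have a3 : u * (N - (g * y + n)) = 0 := by linear_combination hNu + y * a2 - hv
    rcases mul_eq_zero.1 a3 with h0 | h0 <;> omega

open Polynomial in
theorem gauss {M a0 a1 a2 a3 : ℤ} (k : ℕ) (s : ℤ → ℤ) (h0 : ∀ j ≤ 0, s j = 0)
    (hk : ∀ j, (k : ℤ) < j → s j = 0) (h1 : 0 < s 1)
    (H : ∀ j : ℕ, M ∣ a0 * s (j + 1) + a1 * s j + a2 * s (j - 1) + a3 * s (j - 2)) :
    ∃ σ, 1 ≤ σ ∧ σ ≤ s 1 ∧ M ∣ σ * a0 ∧ M ∣ σ * a1 := by
  obtain ⟨S, hS⟩ : ∃ S : ℤ[X], ∀ j : ℕ, S.coeff j = s (j + 1) := by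
    refine ⟨∑ i ∈ range k, monomial i (s (i + 1)), fun j => ?_⟩
    simp only [finset_sum_coeff, coeff_monomial, sum_ite_eq', mem_range]
    split_ifs with h
    · rfl
    · exact (hk _ (by omega)).symm
  have hc : ∀ (m j : ℕ), (S * X ^ m).coeff j = s (j + 1 - m) := by
    intro m j
    rw [coeff_mul_X_pow']
    split_ifs with h
    · rw [hS]; congr 1; omega
    · exact (h0 _ (by omega)).symm
  set Q : ℤ[X] := C a0 * X ^ 0 + C a1 * X ^ 1 + C a2 * X ^ 2 + C a3 * X ^ 3 with hQ
  have hd : M ∣ S.content * Q.content := by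
    rw [← content_mul, dvd_content_iff_C_dvd, C_dvd_iff_dvd_coeff]
    intro j
    have : S * Q = C a0 * (S * X ^ 0) + C a1 * (S * X ^ 1) + C a2 * (S * X ^ 2) +
      C a3 * (S * X ^ 3) := by rw [hQ]; ring
    rw [this]
    simp only [coeff_add, coeff_C_mul, hc]
    have := H j
    rwa [show (j : ℤ) + 1 - (0 : ℕ) = j + 1 by omega, show (j : ℤ) + 1 - (1 : ℕ) = j by omega,
      show (j : ℤ) + 1 - (2 : ℕ) = j - 1 by omega, show (j : ℤ) + 1 - (3 : ℕ) = j - 2 by omega]
  have q0 : Q.coeff 0 = a0 := by simp [hQ, coeff_X, coeff_X_pow]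
  have q1 : Q.coeff 1 = a1 := by
    simp only [hQ, coeff_add, coeff_C_mul, coeff_X_pow]; simp
  have hs1 : S.content ∣ s 1 := by simpa [hS] using content_dvd_coeff (p := S) 0
  refine ⟨|S.content|, ?_, Int.le_of_dvd h1 ((abs_dvd _ _).2 hs1), ?_, ?_⟩
  · refine Int.one_le_abs fun h => ?_
    rw [h, zero_dvd_iff] at hs1; omega
  · exact hd.trans (mul_dvd_mul (self_dvd_abs _) (q0 ▸ content_dvd_coeff 0))
  · exact hd.trans (mul_dvd_mul (self_dvd_abs _) (q1 ▸ content_dvd_coeff 1))

theorem carry_lt {n b k : ℕ} {d c : ℕ → ℕ} (hp : IsPal n b k d c) : ∀ j ≤ k + 1, c j < n := by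
  intro j hj
  induction j with
  | zero => rw [hp.carry_zero]; have := hp.one_lt; omega
  | succ j ih =>
    have h1 := hp.carry j (by omega)
    have h2 := hp.digit (k - j) (by omega)
    have h3 := ih (by omega)
    have h4 : n * (d (k - j) + 1) ≤ n * b := by gcongr; omega
    have : b * c (j + 1) < b * n := by nlinarith
    exact lt_of_mul_lt_mul_left this (Nat.zero_le _)

theorem digit_eq {n b k : ℕ} {d c : ℕ → ℕ} (hp : IsPal n b k d c) (j : ℕ) (hj : j ≤ k) :
    ((n : ℤ) ^ 2 - 1) * d j =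
      n * (b * c (k - j + 1) - c (k - j)) + (b * c (j + 1) - c j) := by
  have h1 := hp.carry j hj
  have h2 := hp.carry (k - j) (by omega)
  rw [show k - (k - j) = j by omega] at h2
  zify at h1 h2
  linear_combination n * h2 + h1

end aux

theorem result (n b k N B : ℕ) (d c D C : ℕ → ℕ) (hp : IsPal n b k d c)
    (hs : ∀ j ≤ k, c j = c (k - j + 1)) (hq : IsPal N B (k + 2) D C)
    (h1 : ∀ j ≤ k, C (j + 1) = d j) (h2 : C (k + 2) = 0) : N = b := by
  have hn := hp.one_lt
  have hb := hp.lt_base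
  have hk := hp.len
  have hs' : ∀ j ≤ k + 1, c j = c (k + 1 - j) := by
    intro j hj
    rcases hj.lt_or_eq with h | rfl
    · rw [hs j (by omega)]; congr 1; omega
    · simp [hp.carry_top, hp.carry_zero]
  have hg0 : 0 < Int.gcd ((n : ℤ) * b - 1) (b - n) := Int.gcd_pos_of_ne_zero_right _ (by omega)
  obtain ⟨x, y, hxy, hx, hy⟩ := Int.exists_gcd_one hg0
  obtain ⟨g, hg⟩ : ∃ g : ℤ, g = Int.gcd ((n : ℤ) * b - 1) (b - n) := ⟨_, rfl⟩
  rw [← hg] at hx hy
  have g0 : 0 < g := by omega
  obtain ⟨h, rfl⟩ : ∃ h, x = n * y + h := ⟨x - n * y, by ring⟩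
  have e : h * g = n ^ 2 - 1 := by linear_combination -hx + n * hy
  have h0 : 0 < h := by
    have : 0 < h * g := by rw [e]; nlinarith
    exact (pos_iff_pos_of_mul_pos this).2 g0
  have y0 : 0 < y := by
    have : 0 < y * g := by omega
    exact (pos_iff_pos_of_mul_pos this).2 g0
  have hd : ∀ j ≤ k, h * d j = (n * y + h) * c j + y * c (j + 1) := by
    intro j hj
    have := digit_eq hp j hj
    rw [← hs j hj, show k - j = k + 1 - (j + 1) by omega, ← hs' (j + 1) (by omega)] at this
    refine mul_left_cancel₀ g0.ne' ?_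
    linear_combination this + d j * e + c j * hx + c (j + 1) * hy
  have hco : IsCoprime h y := by
    have := Int.isCoprime_iff_gcd_eq_one.2 hxy
    rwa [add_comm, IsCoprime.add_mul_right_left_iff] at this
  have hdv : ∀ j ≤ k + 1, h ∣ c j := by
    intro j hj
    induction j with
    | zero => simp [hp.carry_zero]
    | succ j ih =>
      refine hco.dvd_of_dvd_mul_left ?_
      obtain ⟨r, hr⟩ := ih (by omega)
      exact ⟨d j - (n * y + h) * r, by linear_combination -hd j (by omega) - (n * y + h) * hr⟩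
  obtain ⟨s, s0, sk, sc⟩ : ∃ s : ℤ → ℤ, (∀ j ≤ 0, s j = 0) ∧ (∀ j, (k : ℤ) < j → s j = 0) ∧
      ∀ j : ℕ, j ≤ k + 1 → (c j : ℤ) = h * s j := by
    refine ⟨fun j => if j ≤ k then c j.toNat / h else 0, fun j hj => ?_, fun j hj => ?_,
      fun j hj => ?_⟩
    · simp [Int.toNat_of_nonpos hj, hp.carry_zero]
    · simp only [if_neg (not_le.2 hj)]
    · simp only [Int.toNat_natCast]
      split_ifs with h
      · exact (Int.mul_ediv_cancel' (hdv j hj)).symm
      · rw [show j = k + 1 by omega, hp.carry_top]; simp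
  have sym : ∀ i j : ℤ, i + j = k + 1 → s i = s j := by
    intro i j hij
    by_cases hi : i ≤ 0
    · rw [s0 i hi, sk j (by omega)]
    by_cases hj : j ≤ 0
    · rw [s0 j hj, sk i (by omega)]
    lift i to ℕ using by omega
    lift j to ℕ using by omega
    refine mul_left_cancel₀ h0.ne' ?_
    rw [← sc i (by omega), ← sc j (by omega), hs' i (by omega), show k + 1 - i = j by omega]
  have sd : ∀ j ≤ k, (d j : ℤ) = (n * y + h) * s j + y * s (j + 1) := by
    intro j hj
    refine mul_left_cancel₀ h0.ne' ?_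
    have a1 := sc j (by omega)
    have a2 := sc (j + 1) (by omega)
    push_cast at a2
    rw [hd j hj, a1, a2]; ring
  have sC : ∀ j ≤ k + 3, (C j : ℤ) = (n * y + h) * s (j - 1) + y * s j := by
    intro j hj
    rcases j with _ | j
    · rw [hq.carry_zero, s0 _ (by omega), s0 _ (by omega)]; simp
    by_cases hj' : j ≤ k
    · rw [h1 j hj', sd j hj']; simp
    · rw [sk _ (by omega), sk _ (by omega)]
      rcases (by omega : j = k + 1 ∨ j = k + 2) with rfl | rfl
      · simp [h2]
      · simp [hq.carry_top]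
  have s1 : 0 < s 1 := by
    have a1 := sd 0 (by omega)
    have a2 := hp.last
    rw [s0 _ (by omega)] at a1
    have : 0 < y * s 1 := by simp at a1; omega
    exact (pos_iff_pos_of_mul_pos this).1 y0
  obtain ⟨σ, σ1, σ2, σ3, σ4⟩ := gauss (M := (N : ℤ) ^ 2 - 1) (a0 := B * y)
    (a1 := B * (n * y + h) - (N * (n * y + h) + y))
    (a2 := N * B * (n * y + h) - N * y - (n * y + h)) (a3 := N * B * y) k s s0 sk s1 (fun j => by
      by_cases hj : j ≤ k + 2
      · refine ⟨D j, ?_⟩
        rw [digit_eq hq j hj, sC _ (by omega), sC _ (by omega), sC _ (by omega), sC _ (by omega),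
          sym ((k + 2 - j + 1 : ℕ) - 1) (j - 1) (by omega),
          sym (k + 2 - j + 1 : ℕ) (j - 2) (by omega),
          sym ((k + 2 - j : ℕ) - 1) j (by omega), sym (k + 2 - j : ℕ) (j - 1) (by omega)]
        simp only [Nat.cast_add, Nat.cast_one, add_sub_cancel_right]
        ring
      · rw [sk _ (by omega), sk _ (by omega), sk _ (by omega), sk _ (by omega)]; simp)
  have dk : (d k : ℤ) = s 1 * (n * y + h) := by
    rw [sd k le_rfl, sk (k + 1) (by omega), sym k 1 rfl]; ring
  have a1 := hp.digit k le_rfl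
  have a2 := carry_lt hq (k + 1) (by omega)
  rw [h1 k le_rfl] at a2
  have a3 : σ * (n * y + h) ≤ s 1 * (n * y + h) := by gcongr
  have := fin_arith (n := n) (h := h) (g := g) (y := y) (s := σ) (N := N) (by omega) h0 g0 y0 σ1 e
    (by rw [mul_comm g]; omega) (by omega) (by
      have := (σ3.mul_left (n * y + h)).sub (σ4.mul_left y)
      rwa [show (n * y + h) * (σ * (B * y)) - y * (σ * (B * (n * y + h) - (N * (n * y + h) + y)))
        = σ * y * (N * (n * y + h) + y) by ring] at this)
  rw [mul_comm g] at this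
  omega

end Pool.Agent.Results.MP_6bbb8b_nt.Derived
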